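import Pool.Agent.BHD.Fin

set_option autoImplicit false

namespace Pool.Agent.Results.MP_f52059_co.ComputableKernel

/-- The homomorphism density `t(G, H)`. -/
noncomputable def dens {n k : ℕ} (G : SimpleGraph (Fin n)) (H : SimpleGraph (Fin (k + 1))) : ℝ :=
  (Nat.card (G →g H) : ℝ) / ((k + 1 : ℕ) : ℝ) ^ n

/-- There is a computable function `N` such that `G₁ - G₂ ≥ 0` is valid if and only if `G₂` has a
subgraph `C` with at most `N(e(G₁))` vertices such that `G₁ - C ≥ 0` is valid. -/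
theorem result :
    ∃ N : ℕ → ℕ, Computable N ∧ ∀ (n m : ℕ) (G₁ : SimpleGraph (Fin n)) (G₂ : SimpleGraph (Fin m)),
      (∀ (k : ℕ) (H : SimpleGraph (Fin (k + 1))), dens G₂ H ≤ dens G₁ H) ↔
      ∃ j ≤ N G₁.edgeSet.ncard, ∃ (C : SimpleGraph (Fin j)) (f : Fin j → Fin m),
        Function.Injective f ∧ (∀ a b, C.Adj a b → G₂.Adj (f a) (f b)) ∧
        ∀ (k : ℕ) (H : SimpleGraph (Fin (k + 1))), dens C H ≤ dens G₁ H := by
  obtain ⟨p0, hp⟩ := Pool.Agent.BHD.exists_cst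
  refine ⟨_, Pool.Agent.BHD.computable_partB p0, fun n m G₁ G₂ => ?_⟩
  have h0 : ∀ (m : ℕ) (G : SimpleGraph (Fin m)),
      (∀ (k : ℕ) (H : SimpleGraph (Fin (k + 1))), dens G H ≤ dens G₁ H) ↔
        Pool.Agent.BHD.Dom G₁ G := by
    intro m G
    refine forall_congr' fun k => forall_congr' fun H => ?_
    rw [Pool.Agent.BHD.t_hom, Pool.Agent.BHD.t_hom]
    rfl
  rw [h0, Pool.Agent.BHD.basis_ec hp]
  constructor
  · rintro ⟨j, hj, C, ⟨f, hf, hCf⟩, hd⟩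
    exact ⟨j, hj, C, f, hf, hCf, (h0 j C).2 hd⟩
  · rintro ⟨j, hj, C, f, hf, hCf, hd⟩
    exact ⟨j, hj, C, ⟨f, hf, hCf⟩, (h0 j C).1 hd⟩

end Pool.Agent.Results.MP_f52059_co.ComputableKernel
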