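import Pool.Agent.BHD.Fin

set_option autoImplicit false
open Classical

namespace Pool.Agent.Results.MP_f52059_co.OneGraphBounded

/-- For every `n` the question `t(G₂, H) ≤ t(G₁, H)` for all `H`, restricted to the pairs of encoded
graphs in which `G₁` or `G₂` has at most `n` edges, is decidable (the encoding and the inequality
are those of the frozen statement). -/
theorem result (n : ℕ) :
    ComputablePred (fun p : (ℕ × List (ℕ × ℕ)) × (ℕ × List (ℕ × ℕ)) =>
      ((SimpleGraph.fromRel (fun a b : Fin p.1.1 => (a.val, b.val) ∈ p.1.2)).edgeSet.ncard ≤ n ∨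
        (SimpleGraph.fromRel (fun a b : Fin p.2.1 => (a.val, b.val) ∈ p.2.2)).edgeSet.ncard ≤ n) ∧
      ∀ (k : ℕ) (H : SimpleGraph (Fin (k + 1))),
        ((Finset.univ.filter (fun f : Fin p.2.1 → Fin (k + 1) =>
            ∀ i j : Fin p.2.1,
              (SimpleGraph.fromRel (fun a b : Fin p.2.1 => (a.val, b.val) ∈ p.2.2)).Adj i j →
                H.Adj (f i) (f j))).card : ℝ) / (((k + 1 : ℕ) : ℝ) ^ p.2.1)
        ≤
        ((Finset.univ.filter (fun f : Fin p.1.1 → Fin (k + 1) =>
            ∀ i j : Fin p.1.1,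
              (SimpleGraph.fromRel (fun a b : Fin p.1.1 => (a.val, b.val) ∈ p.1.2)).Adj i j →
                H.Adj (f i) (f j))).card : ℝ) / (((k + 1 : ℕ) : ℝ) ^ p.1.1)) := by
  refine (Pool.Agent.BHD.oneGraph n).of_eq fun p => and_congr Iff.rfl ?_
  refine forall_congr' fun k => forall_congr' fun H => ?_
  rw [← Pool.Agent.BHD.t_filter (SimpleGraph.fromRel (fun a b : Fin p.2.1 => (a.val, b.val) ∈ p.2.2)) H,
    ← Pool.Agent.BHD.t_filter (SimpleGraph.fromRel (fun a b : Fin p.1.1 => (a.val, b.val) ∈ p.1.2)) H]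
  rfl

end Pool.Agent.Results.MP_f52059_co.OneGraphBounded
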